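import Pool.Agent.Helper66.SB.GoalsB

/-! Packet SB-STEP of project SB (helper66, MP_d3128a_ag): restriction to the cubic `y = x^3`. -/

set_option autoImplicit false

open Module

noncomputable section

namespace Pool.Agent.Helper60.SB

open Pool.Agent.Helper66.SB Helper18.Shgh

/-- the cuspidal cubic `y = x^3` -/
def ge : R2 := MvPolynomial.X 1 - MvPolynomial.X 0 ^ 3

theorem totalDegree_ge : ge.totalDegree = 3 := by
  apply le_antisymm
  · rw [ge]
    refine (MvPolynomial.totalDegree_sub _ _).trans (max_le ?_ ?_)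
    · rw [MvPolynomial.totalDegree_X]; omega
    · rw [MvPolynomial.totalDegree_X_pow]
  · have h : MvPolynomial.coeff (Finsupp.single (0 : Fin 2) 3) ge ≠ 0 := by
      have h1 : ¬ (Finsupp.single (1 : Fin 2) 1 = Finsupp.single (0 : Fin 2) 3) := by
        intro h
        have := DFunLike.congr_fun h 0
        simp at this
      rw [ge, MvPolynomial.coeff_sub, MvPolynomial.coeff_X_pow,
        MvPolynomial.coeff_X, if_neg h1]
      simp
    have := MvPolynomial.le_totalDegree (MvPolynomial.mem_support_iff.2 h)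
    rw [Finsupp.sum_single_index rfl] at this
    exact this

theorem ge_ne_zero : ge ≠ 0 := by
  intro h
  have := totalDegree_ge
  rw [h] at this
  simp at this

theorem ge_mul_mem_V {F : R2} {n : ℤ} : ge * F ∈ V n ↔ F ∈ V (n - 3) := by
  have := mul_mem_V_iff (F := F) ge_ne_zero (n := n - 3)
  rw [totalDegree_ge] at this
  rw [← this]
  congr! 2
  push_cast
  ring

/-- restriction to the cubic -/
def rc : R2 →ₐ[ℂ] Polynomial ℂ := MvPolynomial.aeval ![Polynomial.X, Polynomial.X ^ 3]

theorem rc_X0 : rc (MvPolynomial.X 0) = Polynomial.X := by simp [rc]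
theorem rc_X1 : rc (MvPolynomial.X 1) = Polynomial.X ^ 3 := by simp [rc]

theorem rc_ge : rc ge = 0 := by
  rw [ge, map_sub, map_pow, rc_X0, rc_X1, sub_self]

theorem exists_nf (F : R2) : ∃ (A : R2) (B : Polynomial ℂ),
    F = ge * A + Polynomial.aeval (MvPolynomial.X 0) B := by
  induction F using MvPolynomial.induction_on with
  | C a =>
    refine ⟨0, Polynomial.C a, ?_⟩
    rw [Polynomial.aeval_C]
    simp [MvPolynomial.algebraMap_eq]
  | add F G hF hG =>
    obtain ⟨A, B, h⟩ := hF
    obtain ⟨A', B', h'⟩ := hG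
    refine ⟨A + A', B + B', ?_⟩
    rw [map_add, h, h']
    ring
  | mul_X F i hF =>
    obtain ⟨A, B, h⟩ := hF
    fin_cases i
    · refine ⟨A * MvPolynomial.X 0, B * Polynomial.X, ?_⟩
      change F * MvPolynomial.X 0 = _
      rw [h, map_mul, Polynomial.aeval_X]
      ring
    · refine ⟨A * MvPolynomial.X 1 + Polynomial.aeval (MvPolynomial.X 0) B,
        B * Polynomial.X ^ 3, ?_⟩
      change F * MvPolynomial.X 1 = _
      rw [h, map_mul, map_pow, Polynomial.aeval_X, ge]
      ring

theorem rc_aeval (B : Polynomial ℂ) : rc (Polynomial.aeval (MvPolynomial.X 0) B) = B := by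
  rw [← Polynomial.aeval_algHom_apply, rc_X0, Polynomial.aeval_X_left_apply]

theorem exists_of_rc_eq_zero {F : R2} (h : rc F = 0) : ∃ G, F = ge * G := by
  obtain ⟨A, B, hF⟩ := exists_nf F
  rw [hF, map_add, map_mul, rc_ge, zero_mul, zero_add, rc_aeval] at h
  refine ⟨A, ?_⟩
  rw [hF, h]
  simp

theorem natDegree_rc {n : ℕ} (hn : 1 ≤ n) {F : R2} (h : F ∈ V n) :
    (rc F).natDegree ≤ 3 * n ∧ (rc F).coeff (3 * n - 1) = 0 := by
  have key : V n ≤ (Polynomial.degreeLE ℂ ((3 * n : ℕ) : WithBot ℕ) ⊓
      LinearMap.ker (Polynomial.lcoeff ℂ (3 * n - 1))).comap rc.toLinearMap := by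
    rw [V, MvPolynomial.restrictSupport_eq_span, Submodule.span_le]
    rintro _ ⟨e, he, rfl⟩
    change rc (MvPolynomial.monomial e 1) ∈ Polynomial.degreeLE ℂ ((3 * n : ℕ) : WithBot ℕ) ⊓
      LinearMap.ker (Polynomial.lcoeff ℂ (3 * n - 1))
    rw [Submodule.mem_inf, Polynomial.mem_degreeLE, ← Polynomial.natDegree_le_iff_degree_le,
      LinearMap.mem_ker, Polynomial.lcoeff_apply, rc,
      MvPolynomial.aeval_monomial, map_one, one_mul, Finsupp.prod_fintype _ _ (by simp),
      Fin.prod_univ_two]
    change ((Polynomial.X : Polynomial ℂ) ^ (e 0) * (Polynomial.X ^ 3) ^ (e 1)).natDegree ≤ _ ∧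
      ((Polynomial.X : Polynomial ℂ) ^ (e 0) * (Polynomial.X ^ 3) ^ (e 1)).coeff _ = 0
    rw [← pow_mul, ← pow_add, Polynomial.natDegree_X_pow, Polynomial.coeff_X_pow]
    change ((e.degree : ℕ) : ℤ) ≤ n at he
    have h3 : e.degree = e 0 + e 1 := by
      rw [Finsupp.degree_eq_sum, Fin.sum_univ_two]
    rw [h3] at he
    have : e 0 + e 1 ≤ n := by exact_mod_cast he
    refine ⟨by omega, if_neg (by omega)⟩
  have h1 := key h
  rw [Submodule.mem_comap, Submodule.mem_inf, Polynomial.mem_degreeLE,
    ← Polynomial.natDegree_le_iff_degree_le, LinearMap.mem_ker, Polynomial.lcoeff_apply] at h1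
  exact h1

theorem eval_rc (z : ℂ) (F : R2) : (rc F).eval z = MvPolynomial.eval (ga z) F := by
  have h : (Polynomial.aeval z).comp rc =
      (MvPolynomial.aeval (ga z) : R2 →ₐ[ℂ] ℂ) := by
    apply MvPolynomial.algHom_ext
    intro i
    fin_cases i <;> simp [rc, ga]
  have h1 := DFunLike.congr_fun h F
  rw [AlgHom.comp_apply, Polynomial.coe_aeval_eq_eval] at h1
  rw [h1]
  rfl

theorem rc_dvd {z : ℂ} {m : ℕ} {F : R2} (h : F ∈ mI (ga z) ^ m) :
    (Polynomial.X - Polynomial.C z) ^ m ∣ rc F := by
  have h1 : mI (ga z) ≤ Ideal.comap rc (Ideal.span {Polynomial.X - Polynomial.C z}) := by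
    intro G hG
    rw [Ideal.mem_comap, Ideal.mem_span_singleton, Polynomial.dvd_iff_isRoot,
      Polynomial.IsRoot.def, eval_rc]
    exact mem_mI_iff.1 hG
  have h2 := Ideal.pow_right_mono h1 m h
  have h3 := Ideal.le_comap_pow rc m h2
  rw [Ideal.mem_comap, Ideal.span_singleton_pow, Ideal.mem_span_singleton] at h3
  exact h3

theorem DY_ge : DY ge = 1 := by
  rw [ge, map_sub, Derivation.leibniz_pow, DY,
    MvPolynomial.pderiv_X_self, MvPolynomial.pderiv_X_of_ne (by decide)]
  simp

theorem ge_notMem (z : ℂ) : ge ∉ mI (ga z) ^ 2 := by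
  intro h
  have h1 := deriv_mem_pow DY (mI (ga z)) 1 h
  rw [pow_one, mem_mI_iff, DY_ge, map_one] at h1
  exact one_ne_zero h1

theorem gSTEP : G_STEP := by
  intro r t ht n a hn hs
  set W := SP (n : ℤ) Finset.univ (fun i => ga (t i)) a with hW
  set W' := SP ((n : ℤ) - 3) Finset.univ (fun i => ga (t i)) (fun i => a i - 1) with hW'
  set s := ∑ i, a i with hs'
  set QQ : Polynomial ℂ := ∏ i, (Polynomial.X - Polynomial.C (t i)) ^ a i with hQQ
  have hmon : QQ.Monic := Polynomial.monic_prod_of_monic _ _ fun i _ =>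
    (Polynomial.monic_X_sub_C (t i)).pow (a i)
  have hdeg : QQ.natDegree = s := by
    rw [hQQ, Polynomial.natDegree_prod_of_monic _ _ fun i _ =>
      (Polynomial.monic_X_sub_C (t i)).pow (a i)]
    simpa using hs'.symm
  set f := rc.toLinearMap.domRestrict W with hf
  have h0 := LinearMap.finrank_range_add_finrank_ker f
  -- the kernel
  have hk : finrank ℂ (LinearMap.ker f) ≤ finrank ℂ W' := by
    rw [← Submodule.finrank_map_subtype_eq W (LinearMap.ker f)]
    have h1 : (LinearMap.ker f).map W.subtype ≤ W'.map (LinearMap.mulLeft ℂ ge) := by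
      rintro _ ⟨⟨G, hG⟩, hG2, rfl⟩
      have hG3 : rc G = 0 := hG2
      obtain ⟨H, rfl⟩ := exists_of_rc_eq_zero hG3
      refine ⟨H, ?_, rfl⟩
      rw [hW', SetLike.mem_coe, mem_SP]
      rw [hW, mem_SP] at hG
      refine ⟨ge_mul_mem_V.1 hG.1, fun i hi => ?_⟩
      have h2 := hG.2 i hi
      show H ∈ mI (ga (t i)) ^ (a i - 1)
      rcases Nat.eq_zero_or_pos (a i) with h3 | h3
      · rw [h3]
        simp
      · obtain ⟨m, hm⟩ : ∃ m, a i = m + 1 := ⟨a i - 1, by omega⟩
        rw [hm] at h2 ⊢
        exact mem_of_mul_mem (ge_notMem (t i)) h2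
    exact (Submodule.finrank_mono h1).trans (Submodule.finrank_map_le _ _)
  -- the range
  have hr : finrank ℂ (LinearMap.range f) ≤ 3 * n - s := by
    set e := 3 * n - s with he
    set K : Submodule ℂ (Polynomial ℂ) := Polynomial.degreeLT ℂ (e + 1) ⊓
      LinearMap.ker ((Polynomial.lcoeff ℂ (3 * n - 1)).comp (LinearMap.mulLeft ℂ QQ)) with hK
    have h1 : LinearMap.range f ≤ K.map (LinearMap.mulLeft ℂ QQ) := by
      rintro _ ⟨⟨G, hG⟩, rfl⟩
      rw [hW, mem_SP] at hG
      obtain ⟨h2, h3⟩ := natDegree_rc hn hG.1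
      have h4 : QQ ∣ rc G := by
        rw [hQQ]
        refine Finset.prod_dvd_of_coprime ?_ fun i hi => rc_dvd (hG.2 i hi)
        intro i _ j _ hij
        exact (Polynomial.pairwise_coprime_X_sub_C ht.injective hij).pow
      obtain ⟨h, hh⟩ := h4
      refine ⟨h, ?_, hh.symm⟩
      rw [hK, SetLike.mem_coe, Submodule.mem_inf, Polynomial.mem_degreeLT, LinearMap.mem_ker]
      refine ⟨?_, ?_⟩
      · by_cases hz : h = 0
        · rw [hz, Polynomial.degree_zero]
          exact WithBot.bot_lt_coe _
        · rw [hh, hmon.natDegree_mul' hz, hdeg] at h2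
          rw [Polynomial.degree_eq_natDegree hz]
          exact_mod_cast (by omega : h.natDegree < e + 1)
      · show (QQ * h).coeff (3 * n - 1) = 0
        rw [← hh]
        exact h3
    have hfin : FiniteDimensional ℂ (Polynomial.degreeLT ℂ (e + 1)) :=
      (Polynomial.degreeLTEquiv ℂ (e + 1)).symm.finiteDimensional
    have h2 : finrank ℂ (Polynomial.degreeLT ℂ (e + 1)) = e + 1 := by
      rw [LinearEquiv.finrank_eq (Polynomial.degreeLTEquiv ℂ (e + 1)), finrank_fin_fun]
    have h3 : K < Polynomial.degreeLT ℂ (e + 1) := by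
      refine lt_of_le_of_ne inf_le_left fun h4 => ?_
      have h5 : ∃ h₀ ∈ Polynomial.degreeLT ℂ (e + 1), (QQ * h₀).coeff (3 * n - 1) ≠ 0 := by
        rcases Nat.eq_zero_or_pos e with h6 | h6
        · refine ⟨1, ?_, ?_⟩
          · rw [Polynomial.mem_degreeLT, Polynomial.degree_one]
            exact_mod_cast Nat.succ_pos e
          · rw [mul_one]
            have h7 : s = 3 * n := by omega
            have h8 : QQ.coeff (3 * n - 1) = QQ.nextCoeff := by
              rw [Polynomial.nextCoeff, if_neg (by omega), hdeg, h7]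
            rw [h8, hQQ, Polynomial.Monic.nextCoeff_prod _ _ fun i _ =>
              (Polynomial.monic_X_sub_C (t i)).pow (a i)]
            have h9 : ∀ i : Fin r, ((Polynomial.X - Polynomial.C (t i)) ^ a i).nextCoeff =
                -((a i : ℚ) • t i) := by
              intro i
              rw [(Polynomial.monic_X_sub_C (t i)).nextCoeff_pow, Polynomial.nextCoeff_X_sub_C]
              rw [smul_neg, Rat.smul_def]
              push_cast
              rw [nsmul_eq_mul]
            rw [Finset.sum_congr rfl fun i _ => h9 i, Finset.sum_neg_distrib, neg_ne_zero]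
            intro h10
            have h11 := Fintype.linearIndependent_iff.1 ht (fun i => (a i : ℚ)) h10
            have h12 : s = 0 := by
              rw [hs']
              refine Finset.sum_eq_zero fun i _ => ?_
              exact_mod_cast h11 i
            omega
        · refine ⟨Polynomial.X ^ (e - 1), ?_, ?_⟩
          · rw [Polynomial.mem_degreeLT, Polynomial.degree_X_pow]
            exact_mod_cast (by omega : e - 1 < e + 1)
          · have h7 : 3 * n - 1 = s + (e - 1) := by omega
            rw [h7, Polynomial.coeff_mul_X_pow, ← hdeg]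
            rw [hmon.coeff_natDegree]
            exact one_ne_zero
      obtain ⟨h₀, h6, h7⟩ := h5
      rw [← h4] at h6
      exact h7 (LinearMap.mem_ker.1 (Submodule.mem_inf.1 h6).2)
    have h4 := Submodule.finrank_lt_finrank_of_lt h3
    have hfinK : FiniteDimensional ℂ K := Submodule.finiteDimensional_of_le inf_le_left
    have h5 := (Submodule.finrank_mono h1).trans (Submodule.finrank_map_le _ _)
    omega
  omega

end Pool.Agent.Helper60.SB
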